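import Pool.Agent.Helper19K9.Dd.Stm
import Pool.Agent.Helper19K9.Ld.Fin

/-!
# The number of polynomials whose roots generate fields of small discriminant
-/

set_option autoImplicit false

namespace Pool.Agent.Helper19K9.Dd

open Polynomial NumberField IntermediateField

/-- the data of `f`: a root which generates a field with an element with minimal polynomial `g` -/
def Has (r : ℕ) (g f : ℤ[X]) : Prop :=
  ∃ (k : Type) (_ : Field k) (_ : NumberField k) (b x : k), Module.finrank ℚ k = r ∧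
    aeval b g = 0 ∧ ℚ⟮x⟯ = ⊤ ∧ aeval x f = 0

/-- the count for one subfield -/
theorem per_g (hEL : S_EL) (hFAC : S_FAC) (hUNIQ : S_UNIQ) (r : ℕ) {ε : ℝ} (hε : 0 < ε) :
    ∃ C : ℝ, 1 ≤ C ∧ ∀ (m e : ℕ), 1 ≤ m → 1 ≤ e → m * e = r → ∀ g : ℤ[X], g.Monic →
      Irreducible g → g.natDegree = m → ∀ B : ℕ, 1 ≤ B → ∀ E : Finset ℤ[X],
      (∀ f ∈ E, Irreducible f ∧ f.natDegree = r ∧ (∀ i, |f.coeff i| ≤ B) ∧ Has r g f) →
      (E.card : ℝ) ≤ C * (B : ℝ) ^ ((2 + ε) * e) := by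
  classical
  obtain ⟨C₀, hC₀, hel⟩ := hEL r ε hε
  obtain ⟨D, hD⟩ : ∃ D : ℝ, D = (r + 1) * 2 ^ r := ⟨_, rfl⟩
  have hD1 : 1 ≤ D := by
    rw [hD]
    have h1 : (1 : ℝ) ≤ 2 ^ r := one_le_pow₀ (by norm_num)
    have h2 : (0 : ℝ) ≤ r := Nat.cast_nonneg r
    nlinarith
  obtain ⟨M, hM⟩ : ∃ M : ℝ, M = C₀ * D ^ (2 + ε) := ⟨_, rfl⟩
  have hM1 : 1 ≤ M := by
    rw [hM]
    have := Real.one_le_rpow hD1 (by linarith : 0 ≤ 2 + ε)
    nlinarith
  refine ⟨2 * M ^ r, by have := one_le_pow₀ hM1 (n := r); linarith, ?_⟩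
  intro m e hm he hme g hgm hgi hgd B hB E hE
  have hB1 : (1 : ℝ) ≤ B := by exact_mod_cast hB
  have hB0 : (0 : ℝ) < B := by linarith
  have hgQ : Irreducible (g.map (Int.castRingHom ℚ)) := by
    have := (hgm.irreducible_iff_irreducible_map_fraction_map (K := ℚ)).1 hgi
    rwa [algebraMap_int_eq] at this
  obtain ⟨F, iF, iN, θ, hθ, hFd⟩ := Pool.Agent.Helper19K9.Ld.exists_field g hgQ
  have hFm : Module.finrank ℚ F = m := by rw [hFd, hgd]
  have hmr : m ≤ r := by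
    rw [← hme]
    exact Nat.le_mul_of_pos_right _ (by omega)
  have her : e ≤ r := by
    rw [← hme]
    exact Nat.le_mul_of_pos_left _ (by omega)
  have hDB : 1 ≤ D * B := by nlinarith
  obtain ⟨hfin, hcard⟩ := hel F (by rw [hFm]; exact hmr) (D * B) hDB
  set S := hfin.toFinset with hS
  rw [Set.ncard_eq_toFinset_card _ hfin, ← hS] at hcard
  have hcard' : (S.card : ℝ) ≤ M * (B : ℝ) ^ (2 + ε) := by
    rw [Real.mul_rpow (by linarith) hB0.le] at hcard
    rw [hM]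
    linarith
  -- the factor
  have hφ : ∀ f : ℤ[X], ∃ φ : F[X], f ∈ E → φ.Monic ∧ φ.natDegree = e ∧
      φ ∣ f.map (Int.castRingHom F) ∧ ∀ i, φ.coeff i ∈ S := by
    intro f
    by_cases hf : f ∈ E
    · obtain ⟨h1, h2, h3, k, _, _, b, x, h4, h5, h6, h7⟩ := hE f hf
      obtain ⟨φ, h8, h9, h10, h11⟩ := hFAC r m e hm he hme g hgm hgi hgd F θ hFm hθ k b x h4 h5 h6
        f h1 h2 h7
      refine ⟨φ, fun _ => ⟨h8, h9, h10, fun i => ?_⟩⟩
      rw [hS, Set.Finite.mem_toFinset]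
      refine (h11 i).trans ?_
      have h12 := Pool.Agent.Helper19K9.Ld.mahler_le (r := r) h2.le
      have h13 : (Pool.Agent.Helper19K9.Ld.box r f : ℝ) ≤ B := by
        exact_mod_cast Pool.Agent.Helper19K9.Ld.box_le h3
      have h14 : (1 : ℝ) ≤ Pool.Agent.H813R3.Voj.mahler f :=
        Pool.Agent.H813R3.Voj.one_le_mahler h1.ne_zero
      have h15 : Pool.Agent.H813R3.Voj.mahler f ≤ (r + 1) * B := by
        have : (0 : ℝ) ≤ r := Nat.cast_nonneg r
        nlinarith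
      have h16 : Real.log (f.map (Int.castRingHom ℂ)).mahlerMeasure ≤ Real.log ((r + 1) * B) :=
        Real.log_le_log (by unfold Pool.Agent.H813R3.Voj.mahler at h14; linarith) h15
      have h17 : Real.log (D * B) = Real.log ((r + 1) * B) + r * Real.log 2 := by
        rw [hD, ← Real.log_pow, ← Real.log_mul (by positivity) (by positivity)]
        congr 1
        ring
      rw [h17]
      linarith
    · exact ⟨0, fun h => absurd h hf⟩
  choose φ hφ using hφ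
  -- fibres
  have hfib : ∀ ψ ∈ E.image φ, (E.filter fun f => φ f = ψ).card ≤ 2 := by
    intro ψ hψ
    obtain ⟨f₀, hf₀, rfl⟩ := Finset.mem_image.1 hψ
    have hsub : (E.filter fun f => φ f = φ f₀) ⊆ {f₀, -f₀} := by
      intro f hf
      rw [Finset.mem_filter] at hf
      obtain ⟨h1, h2, h3, -⟩ := hφ f hf.1
      obtain ⟨h1', h2', h3', -⟩ := hφ f₀ hf₀
      have h4 := hUNIQ F (φ f₀) f₀ f (by rw [h2']; exact he) (hE f₀ hf₀).1 (hE f hf.1).1 h3'
        (by rw [← hf.2]; exact h3)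
      rw [Finset.mem_insert, Finset.mem_singleton]
      exact h4
    exact (Finset.card_le_card hsub).trans Finset.card_le_two
  have h1 : E.card ≤ 2 * (E.image φ).card := Finset.card_le_mul_card_image E 2 hfib
  -- the number of factors
  have h2 : (E.image φ).card ≤ S.card ^ e := by
    have hinj : Set.InjOn (fun (ψ : F[X]) (i : Fin e) => ψ.coeff i) (E.image φ : Finset F[X]) := by
      intro ψ hψ ψ' hψ' h
      obtain ⟨f, hf, rfl⟩ := Finset.mem_image.1 (Finset.mem_coe.1 hψ)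
      obtain ⟨f', hf', rfl⟩ := Finset.mem_image.1 (Finset.mem_coe.1 hψ')
      obtain ⟨h3, h4, -, -⟩ := hφ f hf
      obtain ⟨h3', h4', -, -⟩ := hφ f' hf'
      ext i
      rcases lt_trichotomy i e with hi | hi | hi
      · exact congrFun h ⟨i, hi⟩
      · have e1 : (φ f).coeff i = 1 := by
          rw [hi, ← h4]
          exact h3
        have e2 : (φ f').coeff i = 1 := by
          rw [hi, ← h4']
          exact h3'
        rw [e1, e2]
      · rw [coeff_eq_zero_of_natDegree_lt (by omega), coeff_eq_zero_of_natDegree_lt (by omega)]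
    have h5 : ((E.image φ).image (fun (ψ : F[X]) (i : Fin e) => ψ.coeff i)) ⊆
        Fintype.piFinset fun _ : Fin e => S := by
      intro u hu
      obtain ⟨ψ, hψ, rfl⟩ := Finset.mem_image.1 hu
      obtain ⟨f, hf, rfl⟩ := Finset.mem_image.1 hψ
      rw [Fintype.mem_piFinset]
      exact fun i => (hφ f hf).2.2.2 i
    have h6 := Finset.card_le_card h5
    rw [Finset.card_image_of_injOn hinj, Fintype.card_piFinset_const] at h6
    exact h6
  have h3 : (E.card : ℝ) ≤ 2 * (S.card : ℝ) ^ e := by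
    have : E.card ≤ 2 * S.card ^ e := h1.trans (Nat.mul_le_mul_left 2 h2)
    exact_mod_cast this
  have h4 : (S.card : ℝ) ^ e ≤ (M * (B : ℝ) ^ (2 + ε)) ^ e :=
    pow_le_pow_left₀ (Nat.cast_nonneg _) hcard' e
  have h5 : (M * (B : ℝ) ^ (2 + ε)) ^ e = M ^ e * (B : ℝ) ^ ((2 + ε) * e) := by
    rw [mul_pow, ← Real.rpow_natCast ((B : ℝ) ^ (2 + ε)) e, ← Real.rpow_mul hB0.le]
  have h6 : M ^ e ≤ M ^ r := pow_le_pow_right₀ hM1 her
  have h7 : (0 : ℝ) ≤ (B : ℝ) ^ ((2 + ε) * e) := Real.rpow_nonneg hB0.le _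
  calc (E.card : ℝ) ≤ 2 * (M ^ e * (B : ℝ) ^ ((2 + ε) * e)) := by rw [← h5]; linarith
    _ ≤ 2 * (M ^ r * (B : ℝ) ^ ((2 + ε) * e)) := by
        have := mul_le_mul_of_nonneg_right h6 h7
        linarith
    _ = _ := by ring

theorem Gm_mono {m : ℕ} {T T' : ℝ} (hT : 0 ≤ T) (h : T ≤ T') : Gm m T ⊆ Gm m T' := by
  rintro g ⟨h1, h2, h3, h4⟩
  exact ⟨h1, h2, h3, fun i hi => (h4 i hi).trans (pow_le_pow_left₀ hT h i)⟩

/-- the exponents -/
theorem expo {r m : ℝ} (hm : 2 ≤ m) (hmr : m ≤ r) :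
    (m - 1) * (m + 2) / (r + 2) + 2 * r / m ≤ r + 1 := by
  have hm0 : 0 < m := by linarith
  have hr0 : 0 < r + 2 := by linarith
  rw [div_add_div _ _ hr0.ne' hm0.ne', div_le_iff₀ (by positivity)]
  have h1 : 0 ≤ (r - m) * (m ^ 2 + (r + 1) * m - 2 * r - 4) := by
    apply mul_nonneg (by linarith)
    nlinarith
  nlinarith

/-- the degree of the field generated by a root -/
theorem finrank_eq {k : Type} [Field k] [NumberField k] {x : k} (hgen : ℚ⟮x⟯ = ⊤) {f : ℤ[X]}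
    (hf : Irreducible f) (hf0 : f.natDegree ≠ 0) (hx : aeval x f = 0) :
    Module.finrank ℚ k = f.natDegree := by
  have hint : IsIntegral ℚ x := Algebra.IsIntegral.isIntegral x
  have h1 : Module.finrank ℚ ℚ⟮x⟯ = (minpoly ℚ x).natDegree := adjoin.finrank hint
  rw [hgen, finrank_top'] at h1
  rw [h1]
  have hprim : f.IsPrimitive := hf.isPrimitive hf0
  have hfQ : Irreducible (f.map (algebraMap ℤ ℚ)) :=
    (hprim.irreducible_iff_irreducible_map_fraction_map).1 hf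
  have h2 : aeval x (f.map (algebraMap ℤ ℚ)) = 0 := by rw [aeval_map_algebraMap]; exact hx
  have h3 : Associated (minpoly ℚ x) (f.map (algebraMap ℤ ℚ)) :=
    (minpoly.irreducible hint).associated_of_dvd hfQ (minpoly.dvd ℚ x h2)
  rw [natDegree_eq_of_degree_eq (degree_eq_degree_of_associated h3),
    natDegree_map_eq_of_injective (algebraMap ℤ ℚ).injective_int]

/-- **The number of polynomials whose roots generate fields of small discriminant.** -/
theorem tot (hGEN : S_GEN) (hGCNT : S_GCNT) (hEL : S_EL) (hFAC : S_FAC) (hUNIQ : S_UNIQ)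
    (r : ℕ) (hr : 2 ≤ r) {ε : ℝ} (hε : 0 < ε) (hε1 : ε ≤ 1) :
    ∃ c C : ℝ, 0 < c ∧ 0 < C ∧ ∀ B : ℕ, 1 ≤ B → ∀ E : Finset ℤ[X],
      (∀ f ∈ E, Irreducible f ∧ f.natDegree = r ∧ (∀ i, |f.coeff i| ≤ B) ∧
        ∃ (k : Type) (_ : Field k) (_ : NumberField k) (x : k), ℚ⟮x⟯ = ⊤ ∧ aeval x f = 0 ∧
          |(discr k : ℝ)| ≤ (B : ℝ) ^ (4 * ((r : ℝ) - 1) / (r + 2) - ε)) →
      (E.card : ℝ) ≤ C * (B : ℝ) ^ ((r : ℝ) + 1 - c) := by
  classical
  have hrR : (2 : ℝ) ≤ r := by exact_mod_cast hr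
  have hr1 : (0 : ℝ) < (r : ℝ) - 1 := by linarith
  have hr0 : (0 : ℝ) < r := by linarith
  obtain ⟨CG, hCG, hgen⟩ := hGEN r hr
  obtain ⟨ε', hε'⟩ : ∃ ε' : ℝ, ε' = ε / (r * (r - 1)) := ⟨_, rfl⟩
  have hε'0 : 0 < ε' := by rw [hε']; positivity
  obtain ⟨CP, hCP, hper⟩ := per_g hEL hFAC hUNIQ r hε'0
  have hGC : ∀ m : ℕ, ∃ C : ℝ, 1 ≤ C ∧ (2 ≤ m → ∀ T : ℝ, 1 ≤ T →
      (Gm m T).Finite ∧ ((Gm m T).ncard : ℝ) ≤ C * T ^ ((((m : ℝ) - 1) * (m + 2)) / 2)) := by
    intro m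
    by_cases hm : 2 ≤ m
    · obtain ⟨C, h1, h2⟩ := hGCNT m hm
      exact ⟨C, h1, fun _ => h2⟩
    · exact ⟨1, le_rfl, fun h => absurd h hm⟩
  choose CM hCM hgc using hGC
  obtain ⟨δ, hδ⟩ : ∃ δ : ℝ, δ = 4 * ((r : ℝ) - 1) / (r + 2) - ε := ⟨_, rfl⟩
  obtain ⟨τ, hτ⟩ : ∃ τ : ℝ, τ = δ * (1 / (2 * ((r : ℝ) - 1))) := ⟨_, rfl⟩
  have hτe : τ = 2 / (r + 2) - ε / (2 * (r - 1)) := by
    rw [hτ, hδ]
    field_simp
    ring
  have hτ0 : 0 ≤ τ := by
    rw [hτe, sub_nonneg, div_le_div_iff₀ (by positivity) (by positivity)]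
    nlinarith
  obtain ⟨c, hc⟩ : ∃ c : ℝ, c = ε / (2 * (r - 1)) := ⟨_, rfl⟩
  have hc0 : 0 < c := by rw [hc]; positivity
  obtain ⟨κ, hκ⟩ : ∃ κ : ℕ → ℝ, κ = fun m : ℕ => (((m : ℝ) - 1) * (m + 2)) / 2 := ⟨_, rfl⟩
  set D := (Nat.divisors r).filter (fun m => 2 ≤ m) with hD
  have hterm0 : ∀ m ∈ D, 0 ≤ CM m * CG ^ κ m * CP := by
    intro m _
    have h1 := hCM m
    have : (0 : ℝ) ≤ CG ^ κ m := Real.rpow_nonneg (by linarith) _
    positivity
  refine ⟨c, ∑ m ∈ D, CM m * CG ^ κ m * CP + 1, hc0, by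
    linarith [Finset.sum_nonneg hterm0], ?_⟩
  intro B hB E hE
  have hB1 : (1 : ℝ) ≤ B := by exact_mod_cast hB
  have hB0 : (0 : ℝ) < B := by linarith
  obtain ⟨T, hT⟩ : ∃ T : ℝ, T = CG * (B : ℝ) ^ τ := ⟨_, rfl⟩
  have hT1 : 1 ≤ T := by
    rw [hT]
    have := Real.one_le_rpow hB1 hτ0
    nlinarith
  -- the finite sets of polynomials `g`
  let G : ℕ → Finset ℤ[X] := fun m =>
    if h : (Gm m T).Finite then h.toFinset.filter (fun g => Irreducible g) else ∅
  have hG : ∀ m, 2 ≤ m → ∀ g, g ∈ G m ↔ g ∈ Gm m T ∧ Irreducible g := by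
    intro m hm g
    have h1 := (hgc m hm T hT1).1
    simp only [G, dif_pos h1, Finset.mem_filter, Set.Finite.mem_toFinset]
  have hGcard : ∀ m, 2 ≤ m → ((G m).card : ℝ) ≤ CM m * T ^ κ m := by
    intro m hm
    obtain ⟨h1, h2⟩ := hgc m hm T hT1
    rw [Set.ncard_eq_toFinset_card _ h1] at h2
    have h3 : (G m).card ≤ h1.toFinset.card := by
      simp only [G, dif_pos h1]
      exact Finset.card_filter_le _ _
    have h4 : ((G m).card : ℝ) ≤ (h1.toFinset.card : ℝ) := by exact_mod_cast h3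
    rw [hκ]
    exact h4.trans h2
  have hcover : E ⊆ D.biUnion fun m => (G m).biUnion fun g => E.filter fun f => Has r g f := by
    intro f hf
    obtain ⟨h1, h2, h3, k, _, _, x, h4, h5, h6⟩ := hE f hf
    have hk : Module.finrank ℚ k = r := by
      rw [finrank_eq h4 h1 (by omega) h5, h2]
    obtain ⟨m, g, b, h7, h8, h9, h10, h11⟩ := hgen k hk
    rw [Finset.mem_biUnion]
    refine ⟨m, ?_, Finset.mem_biUnion.2 ⟨g, ?_, Finset.mem_filter.2 ⟨hf, ?_⟩⟩⟩
    · rw [hD, Finset.mem_filter, Nat.mem_divisors]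
      exact ⟨⟨h8, by omega⟩, h7⟩
    · rw [hG m h7]
      refine ⟨Gm_mono ?_ ?_ h9, h10⟩
      · have : (0 : ℝ) ≤ |(discr k : ℝ)| ^ (1 / (2 * ((r : ℝ) - 1))) :=
          Real.rpow_nonneg (abs_nonneg _) _
        positivity
      · rw [hT]
        refine mul_le_mul_of_nonneg_left ?_ (by linarith)
        have h12 : |(discr k : ℝ)| ^ (1 / (2 * ((r : ℝ) - 1))) ≤
            ((B : ℝ) ^ δ) ^ (1 / (2 * ((r : ℝ) - 1))) :=
          Real.rpow_le_rpow (abs_nonneg _) (by rw [hδ]; exact h6) (by positivity)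
        rw [← Real.rpow_mul hB0.le, ← hτ] at h12
        exact h12
    · exact ⟨k, inferInstance, inferInstance, b, x, hk, h11, h4, h5⟩
  have hpos : (0 : ℝ) < (B : ℝ) ^ ((r : ℝ) + 1 - c) := Real.rpow_pos_of_pos hB0 _
  -- one subfield degree
  have hone : ∀ m ∈ D, (((G m).biUnion fun g => E.filter fun f => Has r g f).card : ℝ) ≤
      CM m * CG ^ κ m * CP * (B : ℝ) ^ ((r : ℝ) + 1 - c) := by
    intro m hm
    rw [hD, Finset.mem_filter, Nat.mem_divisors] at hm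
    obtain ⟨⟨⟨e, hme⟩, -⟩, hm2⟩ := hm
    have he : 1 ≤ e := by
      rcases Nat.eq_zero_or_pos e with h | h
      · rw [h, mul_zero] at hme; omega
      · exact h
    have hm2R : (2 : ℝ) ≤ m := by exact_mod_cast hm2
    have hmR0 : (0 : ℝ) < m := by linarith
    have hmer : (m : ℝ) * e = r := by exact_mod_cast hme.symm
    have heR : (e : ℝ) = r / m := by rw [← hmer]; field_simp
    have hmr : (m : ℝ) ≤ r := by
      rw [← hmer]
      have : (1 : ℝ) ≤ e := by exact_mod_cast he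
      nlinarith
    have h1 : (((G m).biUnion fun g => E.filter fun f => Has r g f).card : ℝ) ≤
        ∑ g ∈ G m, ((E.filter fun f => Has r g f).card : ℝ) := by
      exact_mod_cast Finset.card_biUnion_le
    have h2 : ∀ g ∈ G m, ((E.filter fun f => Has r g f).card : ℝ) ≤
        CP * (B : ℝ) ^ ((2 + ε') * e) := by
      intro g hg
      rw [hG m hm2] at hg
      refine hper m e (by omega) he hme.symm g hg.1.1 hg.2 hg.1.2.1 B hB _ ?_
      intro f hf
      rw [Finset.mem_filter] at hf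
      obtain ⟨h3, h4, h5, -⟩ := hE f hf.1
      exact ⟨h3, h4, h5, hf.2⟩
    have h3 : ∑ g ∈ G m, ((E.filter fun f => Has r g f).card : ℝ) ≤
        (G m).card * (CP * (B : ℝ) ^ ((2 + ε') * e)) := by
      calc _ ≤ ∑ g ∈ G m, CP * (B : ℝ) ^ ((2 + ε') * e) := Finset.sum_le_sum h2
        _ = _ := by rw [Finset.sum_const, nsmul_eq_mul]
    have h4 : (0 : ℝ) ≤ CP * (B : ℝ) ^ ((2 + ε') * e) := by
      have := Real.rpow_nonneg hB0.le ((2 + ε') * e)
      nlinarith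
    have h5 := mul_le_mul_of_nonneg_right (hGcard m hm2) h4
    have h6 : T ^ κ m = CG ^ κ m * (B : ℝ) ^ (τ * κ m) := by
      rw [hT, Real.mul_rpow (by linarith) (Real.rpow_nonneg hB0.le _), ← Real.rpow_mul hB0.le]
    have hκ2 : 2 ≤ κ m := by
      rw [hκ]
      show 2 ≤ (((m : ℝ) - 1) * (m + 2)) / 2
      nlinarith
    have h7 : τ * κ m + (2 + ε') * e ≤ r + 1 - c := by
      have h8 := expo hm2R hmr
      have h9 : τ * κ m = ((m : ℝ) - 1) * (m + 2) / (r + 2) - c * κ m := by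
        rw [hτe, hc, hκ]
        field_simp
      have h10 : (2 + ε') * e = 2 * r / m + ε' * (r / m) := by
        rw [heR]
        ring
      have h11 : (r : ℝ) / m ≤ r / 2 := div_le_div_of_nonneg_left hr0.le (by norm_num) hm2R
      have h12 : ε' * (r / m) ≤ c := by
        calc ε' * (r / m) ≤ ε' * (r / 2) := mul_le_mul_of_nonneg_left h11 hε'0.le
          _ = c := by
              rw [hε', hc]
              field_simp
      have h13 : c * 2 ≤ c * κ m := mul_le_mul_of_nonneg_left hκ2 hc0.le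
      rw [h9, h10]
      linarith
    have h8 : (B : ℝ) ^ (τ * κ m) * (B : ℝ) ^ ((2 + ε') * e) ≤ (B : ℝ) ^ ((r : ℝ) + 1 - c) := by
      rw [← Real.rpow_add hB0]
      exact Real.rpow_le_rpow_of_exponent_le hB1 h7
    have h9 : (0 : ℝ) ≤ CM m * CG ^ κ m * CP := by
      have h10 := hCM m
      have : (0 : ℝ) ≤ CG ^ κ m := Real.rpow_nonneg (by linarith) _
      positivity
    calc _ ≤ CM m * T ^ κ m * (CP * (B : ℝ) ^ ((2 + ε') * e)) := (h1.trans h3).trans h5
      _ = CM m * CG ^ κ m * CP * ((B : ℝ) ^ (τ * κ m) * (B : ℝ) ^ ((2 + ε') * e)) := by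
          rw [h6]
          ring
      _ ≤ _ := mul_le_mul_of_nonneg_left h8 h9
  calc (E.card : ℝ) ≤ ((D.biUnion fun m => (G m).biUnion fun g => E.filter fun f => Has r g f).card : ℝ) := by
        exact_mod_cast Finset.card_le_card hcover
    _ ≤ ∑ m ∈ D, (((G m).biUnion fun g => E.filter fun f => Has r g f).card : ℝ) := by
        exact_mod_cast Finset.card_biUnion_le
    _ ≤ ∑ m ∈ D, CM m * CG ^ κ m * CP * (B : ℝ) ^ ((r : ℝ) + 1 - c) := Finset.sum_le_sum hone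
    _ = (∑ m ∈ D, CM m * CG ^ κ m * CP) * (B : ℝ) ^ ((r : ℝ) + 1 - c) := by
        rw [Finset.sum_mul]
    _ ≤ _ := mul_le_mul_of_nonneg_right (by linarith) hpos.le

end Pool.Agent.Helper19K9.Dd
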