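import Pool.Agent.Helper19K9.Dd.Stm
import Pool.Agent.Y733.VH.Cnt

/-!
# EL: the number of elements of bounded height, uniformly in the field
-/

set_option autoImplicit false

namespace Pool.Agent.Helper19K9.Dd

open Polynomial NumberField
open Pool.Agent.Y733.UD Pool.Agent.Y733.LS Pool.Agent.Y733.VH Pool.Agent.W223.AK
open Pool.Agent.H691R3

theorem ht_log' {K : Type} [Field K] [NumberField K] (x : K) :
    Real.log (Height.mulHeight₁ x) = ht x := by
  rw [ht_eq_Sa, ← logHeight_eq, Height.logHeight₁_eq_log_mulHeight₁]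

theorem el : S_EL := by
  classical
  intro r ε hε
  obtain ⟨A, hA, h⟩ := all_card hε
  refine ⟨Real.exp (r * A) + 2, by linarith [Real.exp_pos (r * A)], ?_⟩
  intro K _ _ hr B hB
  have hB0 : 0 < B := by linarith
  have hfin : {x : K | Real.log (Height.mulHeight₁ x) ≤ Real.log B}.Finite := by
    refine (NumberField.finite_setOfPred_logHeight₁_le (K := K) (Real.log B)).subset ?_
    intro x hx
    exact hx
  refine ⟨hfin, ?_⟩
  rw [Set.ncard_eq_toFinset_card _ hfin]
  set E := hfin.toFinset with hE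
  have h1 := h K (Real.log B) ((E.erase 0).erase (-1)) (by
    intro x hx
    rw [Finset.mem_erase, Finset.mem_erase] at hx
    refine ⟨⟨hx.2.1, fun h => hx.1 (eq_neg_of_add_eq_zero_left h)⟩, ?_⟩
    rw [← ht_log']
    exact (Set.Finite.mem_toFinset hfin).1 hx.2.2)
  have h2 : (E.card : ℝ) ≤ (((E.erase 0).erase (-1)).card : ℝ) + 2 := by
    have h3 := Finset.card_le_card_sdiff_add_card (s := E) (t := ({0, -1} : Finset K))
    have h4 : E \ ({0, -1} : Finset K) ⊆ (E.erase 0).erase (-1) := by
      intro x hx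
      rw [Finset.mem_sdiff, Finset.mem_insert, Finset.mem_singleton, not_or] at hx
      rw [Finset.mem_erase, Finset.mem_erase]
      exact ⟨hx.2.2, hx.2.1, hx.1⟩
    have h5 := Finset.card_le_card h4
    have h6 : ({0, -1} : Finset K).card ≤ 2 := Finset.card_le_two
    have h7 : E.card ≤ ((E.erase 0).erase (-1)).card + 2 := by omega
    exact_mod_cast h7
  have h3 : Real.exp (Module.finrank ℚ K * A + (2 + ε) * Real.log B) ≤
      Real.exp (r * A) * B ^ (2 + ε) := by
    rw [Real.exp_add, Real.rpow_def_of_pos hB0, mul_comm (Real.log B)]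
    refine mul_le_mul_of_nonneg_right (Real.exp_le_exp.2 ?_) (Real.exp_pos _).le
    exact mul_le_mul_of_nonneg_right (by exact_mod_cast hr) hA
  have h4 : 1 ≤ B ^ (2 + ε) := Real.one_le_rpow hB (by linarith)
  calc (E.card : ℝ) ≤ Real.exp (r * A) * B ^ (2 + ε) + 2 := by linarith
    _ ≤ Real.exp (r * A) * B ^ (2 + ε) + 2 * B ^ (2 + ε) := by linarith
    _ = _ := by ring

end Pool.Agent.Helper19K9.Dd
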