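import Pool.Agent.Helper19K9.Dd.Stm

/-!
# Dd, leaf [GCNT] (helper55 for helper19)
-/

set_option autoImplicit false

namespace Pool.Agent.Helper19K9.Dd

open Polynomial

namespace GcntL

/-- the vector of the free coefficients -/
def co (m : ℕ) (g : ℤ[X]) : Fin (m - 1) → ℤ := fun i => g.coeff (m - (i + 2))

/-- the box -/
noncomputable def box (m : ℕ) (T : ℝ) : Finset (Fin (m - 1) → ℤ) :=
  Fintype.piFinset fun i : Fin (m - 1) => Finset.Icc (-⌊T ^ ((i : ℕ) + 2)⌋) ⌊T ^ ((i : ℕ) + 2)⌋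

theorem maps (m : ℕ) (T : ℝ) : Set.MapsTo (co m) (Gm m T) (box m T) := by
  intro g hg
  obtain ⟨_, _, _, hb⟩ := hg
  simp only [box, Finset.mem_coe, Fintype.mem_piFinset, Finset.mem_Icc]
  intro i
  have hi : (i : ℕ) + 2 ≤ m := by omega
  have h := abs_le.1 (hb (i + 2) hi)
  unfold co
  constructor
  · rw [neg_le]
    apply Int.le_floor.2
    push_cast
    linarith [h.1]
  · exact Int.le_floor.2 h.2

theorem inj (m : ℕ) (hm : 2 ≤ m) (T : ℝ) : Set.InjOn (co m) (Gm m T) := by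
  intro g hg g' hg' h
  obtain ⟨h1, h2, h3, _⟩ := hg
  obtain ⟨h1', h2', h3', _⟩ := hg'
  ext k
  rcases lt_trichotomy k m with hk | hk | hk
  · rcases (show k = m - 1 ∨ k ≤ m - 2 by omega) with h4 | h4
    · rw [h4, h3, h3']
    · have h5 := congrFun h ⟨m - 2 - k, by omega⟩
      unfold co at h5
      simp only at h5
      have h6 : m - (m - 2 - k + 2) = k := by omega
      rwa [h6] at h5
  · have e1 : g.coeff k = 1 := by rw [hk, ← h2]; exact h1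
    have e2 : g'.coeff k = 1 := by rw [hk, ← h2']; exact h1'
    rw [e1, e2]
  · rw [coeff_eq_zero_of_natDegree_lt (by omega), coeff_eq_zero_of_natDegree_lt (by omega)]

theorem card_box (m : ℕ) (T : ℝ) (hT : 1 ≤ T) :
    ((box m T).card : ℝ) ≤ ∏ i : Fin (m - 1), 3 * T ^ ((i : ℕ) + 2) := by
  unfold box
  rw [Fintype.card_piFinset]
  push_cast
  refine Finset.prod_le_prod (fun _ _ => Nat.cast_nonneg _) fun i _ => ?_
  rw [Int.card_Icc]
  have h1 : (1 : ℝ) ≤ T ^ ((i : ℕ) + 2) := one_le_pow₀ hT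
  have h2 : (1 : ℤ) ≤ ⌊T ^ ((i : ℕ) + 2)⌋ := Int.le_floor.2 (by exact_mod_cast h1)
  have h3 : (⌊T ^ ((i : ℕ) + 2)⌋ : ℝ) ≤ T ^ ((i : ℕ) + 2) := Int.floor_le _
  have h4 : (((⌊T ^ ((i : ℕ) + 2)⌋ + 1 - -⌊T ^ ((i : ℕ) + 2)⌋).toNat : ℕ) : ℝ) =
      ((⌊T ^ ((i : ℕ) + 2)⌋ + 1 - -⌊T ^ ((i : ℕ) + 2)⌋ : ℤ) : ℝ) := by
    rw [← Int.cast_natCast, Int.toNat_of_nonneg (by omega)]
  rw [h4]
  push_cast
  linarith

theorem sumi (n : ℕ) : (2 : ℝ) * ∑ i : Fin n, (((i : ℕ) + 2 : ℕ) : ℝ) = n * (n + 3) := by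
  rw [Fin.sum_univ_eq_sum_range (fun i : ℕ => ((i + 2 : ℕ) : ℝ)) n]
  induction n with
  | zero => simp
  | succ n ih =>
    rw [Finset.sum_range_succ, mul_add, ih]
    push_cast; ring

theorem prod_box (m : ℕ) (hm : 2 ≤ m) (T : ℝ) (hT : 1 ≤ T) :
    ∏ i : Fin (m - 1), 3 * T ^ ((i : ℕ) + 2) = 3 ^ (m - 1) * T ^ ((((m : ℝ) - 1) * (m + 2)) / 2) := by
  rw [Finset.prod_mul_distrib, Finset.prod_const, Finset.card_univ, Fintype.card_fin,
    Finset.prod_pow_eq_pow_sum]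
  congr 1
  rw [← Real.rpow_natCast]
  congr 1
  have h := sumi (m - 1)
  have hm' : ((m - 1 : ℕ) : ℝ) = (m : ℝ) - 1 := by
    rw [Nat.cast_sub (by omega)]; simp
  rw [hm'] at h
  push_cast at h ⊢
  linarith

end GcntL

open GcntL in
theorem gcnt : S_GCNT := by
  intro m hm
  refine ⟨3 ^ (m - 1), one_le_pow₀ (by norm_num), fun T hT => ?_⟩
  have h1 : (Gm m T).Finite := Set.Finite.of_injOn (maps m T) (inj m hm T) (Finset.finite_toSet _)
  refine ⟨h1, ?_⟩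
  have h2 : (Gm m T).ncard ≤ ((box m T : Finset _) : Set (Fin (m - 1) → ℤ)).ncard :=
    Set.ncard_le_ncard_of_injOn (co m) (maps m T) (inj m hm T) (Finset.finite_toSet _)
  rw [Set.ncard_coe_finset] at h2
  calc ((Gm m T).ncard : ℝ) ≤ ((box m T).card : ℝ) := by exact_mod_cast h2
    _ ≤ _ := card_box m T hT
    _ = _ := prod_box m hm T hT

end Pool.Agent.Helper19K9.Dd
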