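import Pool.Agent.Helper19K9.Dd.Stm

/-!
# GEN: the polynomial of `b = r a - Tr a`
-/

set_option autoImplicit false

namespace Pool.Agent.Helper19K9.Dd

open Polynomial NumberField IntermediateField

namespace GenL

variable {K : Type} [Field K] [NumberField K]

theorem one_le_disc : (1 : ℝ) ≤ |(discr K : ℝ)| := by
  have h := discr_ne_zero K
  have h1 : (1 : ℤ) ≤ |discr K| := Int.one_le_abs h
  exact_mod_cast h1

theorem conj_le {a : K} {T : ℝ} (h : ∀ w : InfinitePlace K, w a ≤ T) (φ : K →+* ℂ) : ‖φ a‖ ≤ T := by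
  have := h (InfinitePlace.mk φ)
  rwa [InfinitePlace.apply] at this

theorem trace_le {a : K} {T : ℝ} (h : ∀ w : InfinitePlace K, w a ≤ T) :
    ‖((Algebra.trace ℚ K a : ℚ) : ℂ)‖ ≤ Module.finrank ℚ K * T := by
  have h1 := trace_eq_sum_embeddings (K := ℚ) (L := K) ℂ (x := a)
  have h2 : algebraMap ℚ ℂ (Algebra.trace ℚ K a) = ((Algebra.trace ℚ K a : ℚ) : ℂ) := rfl
  rw [← h2, h1]
  refine (norm_sum_le _ _).trans ?_
  calc ∑ σ : K →ₐ[ℚ] ℂ, ‖σ a‖ ≤ ∑ σ : K →ₐ[ℚ] ℂ, T :=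
        Finset.sum_le_sum fun σ _ => conj_le h (σ : K →+* ℂ)
    _ = _ := by
        rw [Finset.sum_const, Finset.card_univ, nsmul_eq_mul, AlgHom.card]

end GenL

open GenL in
theorem gen (hMINK : S_MINK) : S_GEN := by
  classical
  intro r hr
  obtain ⟨C, hC, h⟩ := hMINK r hr
  have hrR : (2 : ℝ) ≤ r := by exact_mod_cast hr
  have h2r : (1 : ℝ) ≤ 2 ^ r := one_le_pow₀ (by norm_num)
  have h2rC : (1 : ℝ) ≤ 2 * r * C := by nlinarith
  refine ⟨2 ^ r * (2 * r * C), one_le_mul_of_one_le_of_one_le h2r h2rC, ?_⟩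
  intro K _ _ hK
  obtain ⟨a, ha, haw⟩ := h K hK
  obtain ⟨D, hD⟩ : ∃ D : ℝ, D = |(discr K : ℝ)| ^ (1 / (2 * ((r : ℝ) - 1))) := ⟨_, rfl⟩
  have hD1 : 1 ≤ D := by
    rw [hD]
    refine Real.one_le_rpow one_le_disc ?_
    have : (0 : ℝ) < r - 1 := by linarith
    positivity
  rw [← hD] at haw ⊢
  set q : ℚ := Algebra.trace ℚ K (a : K) with hq
  set b : K := (r : K) * (a : K) - algebraMap ℚ K q with hb
  have hrK : (r : K) ≠ 0 := by exact_mod_cast (by omega : r ≠ 0)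
  have hqi : IsIntegral ℤ q := Algebra.isIntegral_trace (RingOfIntegers.isIntegral_coe a)
  have hbi : IsIntegral ℤ b := by
    rw [hb]
    refine IsIntegral.sub (IsIntegral.mul ?_ (RingOfIntegers.isIntegral_coe a)) ?_
    · have := isIntegral_algebraMap (R := ℤ) (A := K) (x := (r : ℤ))
      simpa using this
    · exact hqi.map ((Algebra.ofId ℚ K).restrictScalars ℤ)
  have hbiQ : IsIntegral ℚ b := Algebra.IsIntegral.isIntegral b
  have hmin : minpoly ℚ b = (minpoly ℤ b).map (algebraMap ℤ ℚ) :=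
    minpoly.isIntegrallyClosed_eq_field_fractions' ℚ hbi
  have hdeg : (minpoly ℚ b).natDegree = (minpoly ℤ b).natDegree := by
    rw [hmin, natDegree_map_eq_of_injective (algebraMap ℤ ℚ).injective_int]
  set m := (minpoly ℤ b).natDegree with hm
  have hm2 : 2 ≤ m := by
    rw [← hdeg, minpoly.two_le_natDegree_iff hbiQ]
    rintro ⟨c, hc⟩
    apply ha
    refine ⟨(c + q) / r, ?_⟩
    rw [map_div₀, map_add, hc, hb, map_natCast]
    field_simp
    ring
  have hmr : m ∣ r := by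
    rw [← hdeg, ← hK]
    exact minpoly.degree_dvd hbiQ
  have hmler : m ≤ r := Nat.le_of_dvd (by omega) hmr
  -- the trace
  have htr : Algebra.trace ℚ K b = 0 := by
    have h1 : (r : K) * (a : K) = (r : ℚ) • (a : K) := by
      rw [Algebra.smul_def, map_natCast]
    rw [hb, map_sub, h1, map_smul, Algebra.trace_algebraMap, hK, ← hq]
    simp
  have hnext : (minpoly ℤ b).coeff (m - 1) = 0 := by
    have h1 := trace_eq_finrank_mul_minpoly_nextCoeff ℚ (x := b)
    rw [htr] at h1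
    have h2 : (Module.finrank ℚ⟮b⟯ K : ℚ) ≠ 0 := by
      exact_mod_cast (Module.finrank_pos (R := ℚ⟮b⟯) (M := K)).ne'
    have h3 : (minpoly ℚ b).nextCoeff = 0 := by
      have := (mul_eq_zero.1 h1.symm).resolve_left h2
      exact neg_eq_zero.1 this
    rw [nextCoeff_of_natDegree_pos (by rw [hdeg]; omega), hdeg, hmin, coeff_map] at h3
    have h4 : ((((minpoly ℤ b).coeff (m - 1) : ℤ)) : ℚ) = 0 := h3
    exact_mod_cast h4
  -- the conjugates
  obtain ⟨R, hR⟩ : ∃ R : ℝ, R = 2 * r * C * D := ⟨_, rfl⟩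
  have hR1 : 1 ≤ R := by rw [hR]; nlinarith
  have hconj : ∀ φ : K →+* ℂ, ‖φ b‖ ≤ R := by
    intro φ
    have h1 := conj_le haw φ
    have h2 := trace_le haw
    rw [hK, ← hq] at h2
    have h3 : φ b = (r : ℂ) * φ (a : K) - ((q : ℚ) : ℂ) := by
      rw [hb, map_sub, map_mul, map_natCast]
      congr 1
      exact eq_ratCast (φ.comp (algebraMap ℚ K)) q
    rw [h3]
    refine (norm_sub_le _ _).trans ?_
    rw [norm_mul, Complex.norm_natCast, hR]
    have h4 : (r : ℝ) * ‖φ (a : K)‖ ≤ r * (C * D) := mul_le_mul_of_nonneg_left h1 (by linarith)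
    linarith
  refine ⟨m, minpoly ℤ b, b, hm2, hmr, ⟨minpoly.monic hbi, rfl, hnext, ?_⟩,
    minpoly.irreducible hbi, minpoly.aeval ℤ b⟩
  intro i hi
  have hT : 2 ^ r * (2 * r * C) * D = 2 ^ r * R := by rw [hR]; ring
  rw [hT]
  have hmonQ : (minpoly ℚ b).Monic := minpoly.monic hbiQ
  have hc := coeff_le_of_roots_le (p := minpoly ℚ b) (f := algebraMap ℚ ℂ) (B := R) (m - i) hmonQ
    (IsAlgClosed.splits _) (by
      intro z hz
      have h1 : z ∈ (minpoly ℚ b).rootSet ℂ := by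
        rw [mem_rootSet]
        refine ⟨hmonQ.ne_zero, ?_⟩
        rw [mem_roots', IsRoot.def, eval_map_algebraMap] at hz
        exact hz.2
      rw [← NumberField.Embeddings.range_eval_eq_rootSet_minpoly K ℂ b] at h1
      obtain ⟨φ, rfl⟩ := h1
      exact hconj φ)
  rw [hdeg, Nat.sub_sub_self hi] at hc
  have h1 : ‖((minpoly ℚ b).map (algebraMap ℚ ℂ)).coeff (m - i)‖ =
      |((minpoly ℤ b).coeff (m - i) : ℝ)| := by
    rw [hmin, coeff_map, coeff_map]
    have h2 : algebraMap ℚ ℂ (algebraMap ℤ ℚ ((minpoly ℤ b).coeff (m - i))) =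
        (((minpoly ℤ b).coeff (m - i) : ℤ) : ℂ) := by
      simp
    rw [h2, Complex.norm_intCast]
  rw [h1] at hc
  refine hc.trans ?_
  rcases Nat.eq_zero_or_pos i with h0 | h0
  · rw [h0]
    simp
  have h3 : ((m.choose (m - i) : ℕ) : ℝ) ≤ 2 ^ r := by
    have h4 : m.choose (m - i) ≤ 2 ^ m := Nat.choose_le_two_pow m (m - i)
    have h5 : 2 ^ m ≤ 2 ^ r := Nat.pow_le_pow_right (by norm_num) hmler
    exact_mod_cast h4.trans h5
  have h6 : (2 : ℝ) ^ r ≤ (2 ^ r) ^ i := by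
    calc (2 : ℝ) ^ r = (2 ^ r) ^ 1 := (pow_one _).symm
      _ ≤ _ := pow_le_pow_right₀ h2r h0
  calc R ^ i * (m.choose (m - i) : ℝ) ≤ R ^ i * (2 ^ r) ^ i :=
        mul_le_mul_of_nonneg_left (h3.trans h6) (by positivity)
    _ = (2 ^ r * R) ^ i := by rw [mul_pow]; ring

end Pool.Agent.Helper19K9.Dd
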