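import Pool.Agent.Helper19K9.Dd.Cnt
import Pool.Agent.Helper19K9.Ld.Main

/-!
# The inequality on all curves with the discriminant of `ℚ(x)`
-/

set_option autoImplicit false

namespace Pool.Agent.Helper19K9.Dd

open Polynomial NumberField IntermediateField
open Pool.Agent.W223.AC
open Pool.Agent.Helper19K9.Ld (box box_le mahler_le)

/-- the polynomials whose roots generate fields of small discriminant -/
def Small (r : ℕ) (δ : ℝ) : Set ℤ[X] :=
  {f | Irreducible f ∧ f.natDegree = r ∧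
    ∃ (k : Type) (_ : Field k) (_ : NumberField k) (x : k), ℚ⟮x⟯ = ⊤ ∧ aeval x f = 0 ∧
      |(discr k : ℝ)| ≤ (box r f : ℝ) ^ δ}

theorem disc_lower {r : ℕ} (hr : 2 ≤ r) {δ : ℝ} (hδ : 0 ≤ δ) {f : ℤ[X]} (hf : f ∉ Small r δ)
    (hfi : Irreducible f) (hfd : f.natDegree = r) {k : Type} [Field k] [NumberField k] {x : k}
    (hgen : ℚ⟮x⟯ = ⊤) (hx : aeval x f = 0) :
    δ * (Real.log (Height.mulHeight₁ x) / Module.finrank ℚ k) ≤
      Real.log |(discr k : ℝ)| / Module.finrank ℚ k + δ * Real.log (r + 1) := by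
  have hkr : Module.finrank ℚ k = r := by rw [finrank_eq hgen hfi (by omega) hx, hfd]
  have hdisc : (box r f : ℝ) ^ δ < |(discr k : ℝ)| := by
    by_contra hcon
    rw [not_lt] at hcon
    exact hf ⟨hfi, hfd, k, inferInstance, inferInstance, x, hgen, hx, hcon⟩
  have hr0 : (0 : ℝ) < r := by exact_mod_cast (by omega : 0 < r)
  have hr1 : (1 : ℝ) ≤ r := by exact_mod_cast (by omega : 1 ≤ r)
  have hf0 : f ≠ 0 := hfi.ne_zero
  have hbox1 : 1 ≤ box r f := by
    have h1 : f.coeff r ≠ 0 := by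
      rw [← hfd]
      exact leadingCoeff_ne_zero.2 hf0
    have h2 := Pool.Agent.Helper19K9.Ld.coeff_le_box (r := r) f ⟨r, Nat.lt_succ_self r⟩
    have h3 : 1 ≤ (f.coeff r).natAbs := Nat.one_le_iff_ne_zero.2 (Int.natAbs_ne_zero.2 h1)
    exact h3.trans h2
  have hboxR : (1 : ℝ) ≤ box r f := by exact_mod_cast hbox1
  have hmh := Pool.Agent.W469.CV.MH.t k x f hfi (by omega) hx
  rw [hkr, hfd, mul_div_cancel₀ _ hr0.ne'] at hmh
  have hm1 : 1 ≤ Pool.Agent.H813R3.Voj.mahler f := Pool.Agent.H813R3.Voj.one_le_mahler hf0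
  have hm2 := mahler_le (r := r) hfd.le
  have hm3 : Real.log (Pool.Agent.H813R3.Voj.mahler f) ≤ Real.log (r + 1) + Real.log (box r f) := by
    rw [← Real.log_mul (by positivity) (by positivity)]
    exact Real.log_le_log (by linarith) hm2
  have h1 : δ * Real.log (box r f) ≤ Real.log |(discr k : ℝ)| := by
    rw [← Real.log_rpow (by linarith)]
    exact Real.log_le_log (Real.rpow_pos_of_pos (by linarith) _) hdisc.le
  have hlogr : 0 ≤ Real.log ((r : ℝ) + 1) := Real.log_nonneg (by linarith)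
  rw [hkr]
  have h2 : δ * Real.log (Height.mulHeight₁ x) ≤
      Real.log |(discr k : ℝ)| + δ * Real.log (r + 1) := by
    have := mul_le_mul_of_nonneg_left (hmh.trans hm3) hδ
    linarith
  have h3 := div_le_div_of_nonneg_right h2 hr0.le
  have h4 : δ * Real.log (r + 1) / r ≤ δ * Real.log (r + 1) :=
    div_le_self (by positivity) hr1
  have h5 : δ * (Real.log (Height.mulHeight₁ x) / r) = δ * Real.log (Height.mulHeight₁ x) / r := by
    ring
  rw [h5]
  rw [add_div] at h3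
  linarith

/-- **Vojta's inequality for points of degree `r` on all curves, with the discriminant of `ℚ(x)`
estimated.** -/
theorem main4 (hGEN : S_GEN) (hGCNT : S_GCNT) (hEL : S_EL) (hFAC : S_FAC) (hUNIQ : S_UNIQ)
    {q : ℕ} (F : Fin q → ℤ[X]) (hF : ∀ j, Irreducible ((F j).map (Int.castRingHom ℚ)))
    (hdist : ∀ i j, i ≠ j → ¬ Associated ((F i).map (Int.castRingHom ℚ))
      ((F j).map (Int.castRingHom ℚ)))
    (r : ℕ) (hr2 : 2 ≤ r) (hr : ∀ j, (F j).natDegree ≤ 2 * r + 1) {ε : ℝ} (hε : 0 < ε) :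
    ∃ (E : Set ℤ[X]) (c C : ℝ), 0 < c ∧ 0 < C ∧
      (∀ B : ℕ, 1 ≤ B → ∀ T : Finset ℤ[X],
        (∀ f ∈ T, f ∈ E ∧ f.natDegree ≤ r ∧ ∀ i, |f.coeff i| ≤ B) →
        (T.card : ℝ) ≤ C * (B : ℝ) ^ ((r + 1 : ℝ) - c)) ∧
      ∀ (A : Type) [CommRing A] [IsDedekindDomain A] [Algebra ℚ A] [Algebra ℚ[X] A]
        [IsScalarTower ℚ ℚ[X] A] [Module.Finite ℚ[X] A] [FaithfulSMul ℚ[X] A]
        (u : Fin q → ℕ) (y : ∀ j, Fin (u j + 1) → A), (∀ j, y j 0 = psi A (F j)) →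
        (∀ j i, y j i ∈ (Ideal.span {psi A (F j)}).radical) →
        ∃ cA : ℝ, ∀ (k L : Type) [Field k] [NumberField k] [Field L] [NumberField L] [Algebra k L]
          (φ : A →+* L) (x : k) (f : ℤ[X]), f ∉ E → ℚ⟮x⟯ = ⊤ → Irreducible f →
          f.natDegree = Module.finrank ℚ k → f.natDegree = r → aeval x f = 0 →
          φ (tt A) = algebraMap k L x → ∀ S : Finset ℕ, (∀ p ∈ S, p.Prime) →
          (∀ j, φ (y j 0) ≠ 0) ∧
          (∑ j, (∑ w : InfinitePlace L, (w.mult : ℝ) * lamI (y j) φ w + mS S (y j) φ)) /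
              Module.finrank ℚ L +
            (∑ j, ((F j).natDegree : ℝ) - (∑ j, (Module.finrank ℚ
              (A ⧸ Ideal.span (Set.range (y j))) : ℝ)) / Module.finrank ℚ[X] A +
                4 * ((r : ℝ) - 1) / (r + 2)) *
                (Real.log (Height.mulHeight₁ x) / Module.finrank ℚ k) ≤
          Real.log |(discr L : ℝ)| / Module.finrank ℚ L +
            ε * (Real.log (Height.mulHeight₁ x) / Module.finrank ℚ k) +
            ∑ p ∈ S, Real.log p + cA := by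
  classical
  have hrR : (2 : ℝ) ≤ r := by exact_mod_cast hr2
  obtain ⟨ε', hε'⟩ : ∃ ε' : ℝ, ε' = min 1 (ε / 2) := ⟨_, rfl⟩
  have hε'0 : 0 < ε' := by rw [hε']; exact lt_min one_pos (by positivity)
  have hε'1 : ε' ≤ 1 := by rw [hε']; exact min_le_left _ _
  have hε'2 : ε' ≤ ε / 2 := by rw [hε']; exact min_le_right _ _
  obtain ⟨δ, hδ⟩ : ∃ δ : ℝ, δ = 4 * ((r : ℝ) - 1) / (r + 2) - ε' := ⟨_, rfl⟩
  have hδ0 : 0 ≤ δ := by
    have : 1 ≤ 4 * ((r : ℝ) - 1) / (r + 2) := by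
      rw [le_div_iff₀ (by linarith)]
      linarith
    rw [hδ]
    linarith
  obtain ⟨E₁, c₁, C₁, hc₁, hC₁, hcount₁, h₁⟩ := Pool.Agent.Helper19K9.Ld.main F hF hdist r
    (by omega) hr (ε := ε / 2) (by positivity)
  obtain ⟨c₂, C₂, hc₂, hC₂, hcount₂⟩ := tot hGEN hGCNT hEL hFAC hUNIQ r hr2 hε'0 hε'1
  rw [← hδ] at hcount₂
  refine ⟨E₁ ∪ Small r δ, min c₁ c₂, C₁ + C₂, lt_min hc₁ hc₂, by linarith, ?_, ?_⟩
  · intro B hB T hT
    have hB1 : (1 : ℝ) ≤ B := by exact_mod_cast hB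
    have hB0 : (0 : ℝ) < B := by linarith
    have hsub : T ⊆ T.filter (fun f => f ∈ E₁) ∪ T.filter (fun f => f ∈ Small r δ) := by
      intro f hf
      rw [Finset.mem_union, Finset.mem_filter, Finset.mem_filter]
      rcases (hT f hf).1 with h | h
      · exact Or.inl ⟨hf, h⟩
      · exact Or.inr ⟨hf, h⟩
    have h1 := hcount₁ B hB (T.filter (fun f => f ∈ E₁)) (by
      intro f hf
      rw [Finset.mem_filter] at hf
      exact ⟨hf.2, (hT f hf.1).2⟩)
    have h2 := hcount₂ B hB (T.filter (fun f => f ∈ Small r δ)) (by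
      intro f hf
      rw [Finset.mem_filter] at hf
      obtain ⟨h3, h4, k, i1, i2, x, h5, h6, h7⟩ := hf.2
      have h8 := (hT f hf.1).2.2
      refine ⟨h3, h4, h8, k, i1, i2, x, h5, h6, h7.trans ?_⟩
      refine Real.rpow_le_rpow (Nat.cast_nonneg _) ?_ hδ0
      exact_mod_cast box_le h8)
    have h3 : (B : ℝ) ^ ((r + 1 : ℝ) - c₁) ≤ (B : ℝ) ^ ((r + 1 : ℝ) - min c₁ c₂) :=
      Real.rpow_le_rpow_of_exponent_le hB1 (by linarith [min_le_left c₁ c₂])
    have h4 : (B : ℝ) ^ ((r + 1 : ℝ) - c₂) ≤ (B : ℝ) ^ ((r + 1 : ℝ) - min c₁ c₂) :=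
      Real.rpow_le_rpow_of_exponent_le hB1 (by linarith [min_le_right c₁ c₂])
    calc (T.card : ℝ) ≤ ((T.filter (fun f => f ∈ E₁) ∪
          T.filter (fun f => f ∈ Small r δ)).card : ℝ) := by
          exact_mod_cast Finset.card_le_card hsub
      _ ≤ ((T.filter (fun f => f ∈ E₁)).card : ℝ) + ((T.filter (fun f => f ∈ Small r δ)).card : ℝ) := by
          exact_mod_cast Finset.card_union_le _ _
      _ ≤ C₁ * (B : ℝ) ^ ((r + 1 : ℝ) - min c₁ c₂) + C₂ * (B : ℝ) ^ ((r + 1 : ℝ) - min c₁ c₂) :=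
          add_le_add (h1.trans (mul_le_mul_of_nonneg_left h3 hC₁.le))
            (h2.trans (mul_le_mul_of_nonneg_left h4 hC₂.le))
      _ = _ := by ring
  · intro A _ _ _ _ _ _ _ u y hy0 hyr
    obtain ⟨cA, hcA⟩ := h₁ A u y hy0 hyr
    refine ⟨cA + δ * Real.log (r + 1), ?_⟩
    intro k L _ _ _ _ _ φ x f hfE hgen hf hd hdr hx hφ S hS
    rw [Set.mem_union, not_or] at hfE
    obtain ⟨h2, h3⟩ := hcA k L φ x f hfE.1 hgen hf hd hdr hx hφ S hS
    refine ⟨h2, ?_⟩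
    have h4 := disc_lower hr2 hδ0 hfE.2 hf hdr hgen hx
    obtain ⟨H, hH⟩ : ∃ H : ℝ, H = Real.log (Height.mulHeight₁ x) / Module.finrank ℚ k := ⟨_, rfl⟩
    have hH0 : 0 ≤ H := by
      rw [hH, ← Height.logHeight₁_eq_log_mulHeight₁]
      exact div_nonneg (Height.zero_le_logHeight₁ x) (Nat.cast_nonneg _)
    rw [← hH] at h3 h4 ⊢
    have h5 : ε' * H ≤ ε / 2 * H := mul_le_mul_of_nonneg_right hε'2 hH0
    have h6 : 4 * ((r : ℝ) - 1) / (r + 2) = δ + ε' := by rw [hδ]; ring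
    rw [h6, add_mul, add_mul]
    linarith

end Pool.Agent.Helper19K9.Dd
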