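import Mathlib

/-!
# Discriminants of the fields generated by almost all algebraic numbers of degree `r`: leaves

Plan. `K` of degree `r ≥ 2`. Minkowski gives an integer `a ∉ ℚ` of `K` all of whose conjugates are
at most `C |D| ^ (1 / (2 (r - 1)))` (MINK). Then `b = r a - Tr a` has trace `0`; its minimal
polynomial `g` has degree `m ∣ r`, `m ≥ 2`, and is in `Gm m T` (GEN). If `f` is the minimal polynomial
of a generator `x` of `K`, then `f` has a monic factor `φ` of degree `r / m` over `F = ℚ[X]/(g)`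
whose coefficients have height `≤ 2 ^ r M(f)` (FAC, from SYM and MH), and `φ` determines `f` up to the
sign (UNIQ). Together with the number of elements of bounded height in `F` (EL) and of elements of
`Gm m T` (GCNT) this bounds the number of `f` with small `|D|`.
-/

set_option autoImplicit false

namespace Pool.Agent.Helper19K9.Dd

open Polynomial NumberField IntermediateField

/-- monic polynomials of degree `m` without term of degree `m - 1` whose roots are, roughly, at
most `T` -/
def Gm (m : ℕ) (T : ℝ) : Set ℤ[X] :=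
  {g | g.Monic ∧ g.natDegree = m ∧ g.coeff (m - 1) = 0 ∧ ∀ i ≤ m, |(g.coeff (m - i) : ℝ)| ≤ T ^ i}

/-- MINK: a small integer of `K` which is not rational.
Proof: if `K` has a real place `w₀`: Minkowski (`exists_ne_zero_mem_ringOfIntegers_lt`) for the body
`|x|_{w₀} < 1`, `|x|_w < T` for the other `w`, of volume `c T ^ (r - 1)`; otherwise
`exists_ne_zero_mem_ringOfIntegers_lt'` (`|Re x| < 1`, `|Im x| < T` at `w₀` and `|x|_w < T` at the
other `w`), again of volume `c T ^ (r - 1)`. A nonzero rational integer is not in the body. The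
constant: `minkowskiBound K 1 = 2 ^ r * c' * √|D|`, all constants depend on `r` only (finitely many
pairs `(r_1, r_2)`). -/
def S_MINK : Prop :=
  ∀ r : ℕ, 2 ≤ r → ∃ C : ℝ, 1 ≤ C ∧ ∀ (K : Type) [Field K] [NumberField K],
    Module.finrank ℚ K = r → ∃ a : 𝓞 K, (a : K) ∉ Set.range (algebraMap ℚ K) ∧
      ∀ w : InfinitePlace K, w (a : K) ≤ C * |(discr K : ℝ)| ^ (1 / (2 * ((r : ℝ) - 1)))

/-- GEN: the polynomial of `b = r a - Tr a`. (`m = [ℚ(a) : ℚ]`, the conjugates of `b` are at most
`2 r C |D| ^ …`, the trace of `b` over `ℚ` in `ℚ(a)` is zero because that in `K` is; the coefficients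
are at most `binom m i * (2 r C …) ^ i ≤ (2 ^ r * 2 r C …) ^ i`.) -/
def S_GEN : Prop :=
  ∀ r : ℕ, 2 ≤ r → ∃ C : ℝ, 1 ≤ C ∧ ∀ (K : Type) [Field K] [NumberField K],
    Module.finrank ℚ K = r → ∃ (m : ℕ) (g : ℤ[X]) (b : K), 2 ≤ m ∧ m ∣ r ∧
      g ∈ Gm m (C * |(discr K : ℝ)| ^ (1 / (2 * ((r : ℝ) - 1)))) ∧ Irreducible g ∧ aeval b g = 0

/-- GCNT: the number of elements of `Gm m T` -/
def S_GCNT : Prop :=
  ∀ m : ℕ, 2 ≤ m → ∃ C : ℝ, 1 ≤ C ∧ ∀ T : ℝ, 1 ≤ T →
    (Gm m T).Finite ∧ ((Gm m T).ncard : ℝ) ≤ C * T ^ ((((m : ℝ) - 1) * (m + 2)) / 2)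

/-- SYM: heights of the coefficients of `∏ (X - y)`. (Place by place: for a place `v` the maximum of
the absolute values of the coefficients and `1` is at most `∏ max (1, |y|_v)`, times `2 ^ card` if
`v` is infinite; or `Height.mulHeight_fun_prod_eq`.) -/
def S_SYM : Prop :=
  ∀ (L : Type) [Field L] [NumberField L] (s : Multiset L) (i : ℕ),
    Real.log (Height.mulHeight₁ ((s.map fun y => X - C y).prod.coeff i)) ≤
      (s.map fun y => Real.log (Height.mulHeight₁ y)).sum +
        Module.finrank ℚ L * (Multiset.card s * Real.log 2)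

/-- MH: the height is at most the logarithmic Mahler measure divided by the degree (known in the
starting library: `Pool.Agent.W469.CV.MH.t`; use it as a hypothesis). -/
def S_MH : Prop :=
  ∀ (L : Type) [Field L] [NumberField L] (x : L) (f : ℤ[X]), Irreducible f →
    0 < f.natDegree → aeval x f = 0 →
    Real.log (Height.mulHeight₁ x) ≤ Module.finrank ℚ L *
      (Real.log (f.map (Int.castRingHom ℂ)).mahlerMeasure / f.natDegree)

/-- EXT: the height in an extension (known in the starting library: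
`Pool.Agent.W223.AC.MK.log_height_ext`; use it as a hypothesis). -/
def S_EXT : Prop :=
  ∀ (K L : Type) [Field K] [NumberField K] [Field L] [NumberField L] [Algebra K L] (x : K),
    Real.log (Height.mulHeight₁ (algebraMap K L x)) =
      Module.finrank K L * Real.log (Height.mulHeight₁ x)

/-- FAC: the factor of `f` over the subfield. (Embed `F` in `k` by `θ ↦ b`, `φ` = minimal polynomial
of `x` over `F`, of degree `[k : F] = e`; `L` a splitting field of `φ` over `k`: there
`φ = ∏ (X - y)`, `card = e`, all `y` are roots of `f`, so SYM and MH give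
`log H_L (coefficient) ≤ [L : ℚ] (e log M(f) / r + e log 2)`, and EXT: divide by `[L : F]`;
`[F : ℚ] e = r`.) -/
def S_FAC : Prop :=
  ∀ (r m e : ℕ), 1 ≤ m → 1 ≤ e → m * e = r → ∀ g : ℤ[X], g.Monic → Irreducible g →
    g.natDegree = m →
    ∀ (F : Type) [Field F] [NumberField F] (θ : F), Module.finrank ℚ F = m → aeval θ g = 0 →
    ∀ (k : Type) [Field k] [NumberField k] (b x : k), Module.finrank ℚ k = r → aeval b g = 0 →
      ℚ⟮x⟯ = ⊤ → ∀ f : ℤ[X], Irreducible f → f.natDegree = r → aeval x f = 0 →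
      ∃ φ : F[X], φ.Monic ∧ φ.natDegree = e ∧ φ ∣ f.map (Int.castRingHom F) ∧
        ∀ i, Real.log (Height.mulHeight₁ (φ.coeff i)) ≤
          Real.log (f.map (Int.castRingHom ℂ)).mahlerMeasure + r * Real.log 2

/-- UNIQ: the factor determines `f` up to the sign. -/
def S_UNIQ : Prop :=
  ∀ (F : Type) [Field F] [NumberField F] (φ : F[X]) (f f' : ℤ[X]), 1 ≤ φ.natDegree →
    Irreducible f → Irreducible f' → φ ∣ f.map (Int.castRingHom F) →
    φ ∣ f'.map (Int.castRingHom F) → f' = f ∨ f' = -f

/-- EL: the number of elements of bounded height, uniformly in the field (helper19). -/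
def S_EL : Prop :=
  ∀ (r : ℕ) (ε : ℝ), 0 < ε → ∃ C : ℝ, 1 ≤ C ∧ ∀ (K : Type) [Field K] [NumberField K],
    Module.finrank ℚ K ≤ r → ∀ B : ℝ, 1 ≤ B →
      {x : K | Real.log (Height.mulHeight₁ x) ≤ Real.log B}.Finite ∧
      ({x : K | Real.log (Height.mulHeight₁ x) ≤ Real.log B}.ncard : ℝ) ≤ C * B ^ (2 + ε)

end Pool.Agent.Helper19K9.Dd
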