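import Mathlib
import Pool.Agent.Helper19K9.Dd.Stm

/-!
# A small integer of a number field which is not rational
-/

set_option autoImplicit false

namespace Pool.Agent.Helper19K9.Dd

open Polynomial NumberField NumberField.InfinitePlace NumberField.mixedEmbedding MeasureTheory

namespace MinkL

variable (K : Type) [Field K] [NumberField K]

lemma mb_le : minkowskiBound K ↑1 ≤
    ((NNReal.sqrt ‖discr K‖₊ * 2 ^ Module.finrank ℚ K : NNReal) : ENNReal) := by
  classical
  rw [minkowskiBound, volume_fundamentalDomain_fractionalIdealLatticeBasis,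
    Units.val_one, FractionalIdeal.absNorm_one, Rat.cast_one,
    ENNReal.ofReal_one, one_mul, mixedEmbedding.finrank, volume_fundamentalDomain_latticeBasis,
    ENNReal.coe_mul, ENNReal.coe_pow, ENNReal.coe_ofNat]
  gcongr
  calc (2 : ENNReal)⁻¹ ^ nrComplexPlaces K * ((NNReal.sqrt ‖discr K‖₊ : NNReal) : ENNReal)
      ≤ 1 * ((NNReal.sqrt ‖discr K‖₊ : NNReal) : ENNReal) := by
        gcongr
        exact pow_le_one₀ (by positivity) (by norm_num)
    _ = _ := one_mul _

variable {K}

lemma prodf {w₀ : InfinitePlace K} (T s : NNReal) [DecidableEq (InfinitePlace K)] :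
    ∏ w, (if w = w₀ then s else T) ^ mult w =
      s ^ mult w₀ * T ^ (Module.finrank ℚ K - mult w₀) := by
  rw [← Finset.mul_prod_erase Finset.univ _ (Finset.mem_univ w₀), if_pos rfl]
  congr 1
  rw [Finset.prod_congr rfl (fun w hw => by rw [if_neg (Finset.ne_of_mem_erase hw)]),
    Finset.prod_pow_eq_pow_sum]
  congr 1
  have h1 := sum_mult_eq (K := K)
  rw [← Finset.add_sum_erase Finset.univ _ (Finset.mem_univ w₀)] at h1
  omega

lemma rat_int {a : 𝓞 K} (ha : (a : K) ∈ Set.range (algebraMap ℚ K)) : ∃ n : ℤ, (a : K) = n := by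
  obtain ⟨q, hq⟩ := ha
  have h1 : IsIntegral ℤ (algebraMap ℚ K q) := by
    rw [hq]; exact RingOfIntegers.isIntegral_coe a
  have h2 : IsIntegral ℤ q :=
    (isIntegral_algebraMap_iff (FaithfulSMul.algebraMap_injective ℚ K)).1 h1
  obtain ⟨n, hn⟩ := IsIntegrallyClosed.isIntegral_iff.1 h2
  refine ⟨n, ?_⟩
  rw [← hq, ← hn]
  simp

end MinkL

open MinkL

/-- [MINK] -/
theorem mink : S_MINK := by
  classical
  intro r hr
  refine ⟨2 ^ (r + 2), one_le_pow₀ one_le_two, ?_⟩
  intro K _ _ hK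
  set δ : ℝ := |(discr K : ℝ)| ^ (1 / (2 * ((r : ℝ) - 1))) with hδ
  have hd1 : (1 : ℝ) ≤ |(discr K : ℝ)| := by
    have h0 : discr K ≠ 0 := discr_ne_zero K
    have h1 : (1 : ℤ) ≤ |discr K| := Int.one_le_abs h0
    exact_mod_cast h1
  have hr1 : (0 : ℝ) < (r : ℝ) - 1 := by
    have : (2 : ℝ) ≤ r := by exact_mod_cast hr
    linarith
  have hδ1 : 1 ≤ δ := Real.one_le_rpow hd1 (by positivity)
  have hδ0 : 0 ≤ δ := by linarith
  set T : NNReal := ⟨2 ^ (r + 1) * δ, by positivity⟩ with hT
  have hTr : (T : ℝ) = 2 ^ (r + 1) * δ := rfl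
  have hT1 : (1 : ℝ) ≤ T := by
    rw [hTr]
    have : (1 : ℝ) ≤ 2 ^ (r + 1) := one_le_pow₀ one_le_two
    nlinarith
  -- the size of the bodies
  have hδp : δ ^ (r - 1) = √|(discr K : ℝ)| := by
    rw [hδ, ← Real.rpow_natCast, ← Real.rpow_mul (abs_nonneg _), Real.sqrt_eq_rpow]
    congr 1
    have : ((r - 1 : ℕ) : ℝ) = (r : ℝ) - 1 := by
      rw [Nat.cast_sub (by omega)]; simp
    rw [this]
    field_simp
  have hpow : (2 : ℝ) ^ r * √|(discr K : ℝ)| < (T : ℝ) ^ (r - 1) := by
    rw [hTr, mul_pow, hδp]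
    have h1 : (2 : ℝ) ^ r < (2 ^ (r + 1)) ^ (r - 1) := by
      rw [← pow_mul]
      apply pow_lt_pow_right₀ one_lt_two
      have : 1 ≤ r - 1 := by omega
      nlinarith
    have h2 : 0 < √|(discr K : ℝ)| := Real.sqrt_pos.2 (by linarith)
    nlinarith
  have hpow' : NNReal.sqrt ‖discr K‖₊ * 2 ^ Module.finrank ℚ K < T ^ (r - 1) := by
    rw [← NNReal.coe_lt_coe]
    push_cast
    rw [hK, mul_comm, Int.norm_eq_abs]
    exact hpow
  have hlt : ∀ c : NNReal, 1 ≤ c → minkowskiBound K ↑1 < (c : ENNReal) * ((T ^ (r - 1) : NNReal) : ENNReal) := by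
    intro c hc
    refine (mb_le K).trans_lt ?_
    rw [← ENNReal.coe_mul, ENNReal.coe_lt_coe]
    calc NNReal.sqrt ‖discr K‖₊ * 2 ^ Module.finrank ℚ K < T ^ (r - 1) := hpow'
      _ = 1 * T ^ (r - 1) := (one_mul _).symm
      _ ≤ c * T ^ (r - 1) := by gcongr
  have h2T : (T : ℝ) ≤ 2 ^ (r + 2) * δ := by
    rw [hTr, pow_succ (2 : ℝ) (r + 1)]
    have : 0 ≤ (2 : ℝ) ^ (r + 1) * δ := by positivity
    nlinarith
  by_cases hreal : ∃ w₀ : InfinitePlace K, IsReal w₀
  · obtain ⟨w₀, hw₀⟩ := hreal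
    have hm : mult w₀ = 1 := mult_isReal ⟨w₀, hw₀⟩
    have hvol : minkowskiBound K ↑1 < volume (convexBodyLT K (fun w => if w = w₀ then 1 else T)) := by
      rw [convexBodyLT_volume]
      have h1 := prodf (K := K) (w₀ := w₀) T 1
      rw [hm, pow_one, one_mul, hK] at h1
      have h2 := hlt (convexBodyLTFactor K) (one_le_convexBodyLTFactor K)
      rw [← h1] at h2
      convert! h2 using 3
    obtain ⟨a, ha0, ha⟩ := exists_ne_zero_mem_ringOfIntegers_lt K hvol
    refine ⟨a, ?_, ?_⟩
    · intro hrat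
      obtain ⟨n, hn⟩ := rat_int hrat
      have h1 := ha w₀
      rw [if_pos rfl, hn, ← norm_embedding_eq, map_intCast, Complex.norm_intCast] at h1
      have h2 : |(n : ℝ)| < 1 := by simpa using h1
      have h3 : |n| < 1 := by exact_mod_cast h2
      have h4 : n = 0 := Int.abs_lt_one_iff.1 h3
      apply ha0
      rw [h4, Int.cast_zero] at hn
      exact RingOfIntegers.coe_eq_zero_iff.1 hn
    · intro w
      have h1 := ha w
      by_cases hw : w = w₀
      · rw [if_pos hw] at h1
        have : (w (a : K)) < 1 := by simpa using h1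
        linarith
      · rw [if_neg hw] at h1
        linarith
  · push Not at hreal
    obtain ⟨w₀⟩ : Nonempty (InfinitePlace K) := inferInstance
    have hw₀ : IsComplex w₀ := not_isReal_iff_isComplex.1 (hreal w₀)
    have hm : mult w₀ = 2 := mult_isComplex ⟨w₀, hw₀⟩
    have hr2 : 2 ≤ Module.finrank ℚ K := by omega
    have hvol : minkowskiBound K ↑1 <
        volume (convexBodyLT' K (fun w => if w = w₀ then NNReal.sqrt T else T) ⟨w₀, hw₀⟩) := by
      rw [convexBodyLT'_volume]
      have h1 := prodf (K := K) (w₀ := w₀) T (NNReal.sqrt T)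
      rw [hm, NNReal.sq_sqrt, hK, ← pow_succ', show r - 2 + 1 = r - 1 by omega] at h1
      have h2 := hlt (convexBodyLT'Factor K) (one_le_convexBodyLT'Factor K)
      rw [← h1] at h2
      convert! h2 using 3
    obtain ⟨a, ha0, ha, hre, him⟩ := exists_ne_zero_mem_ringOfIntegers_lt' K ⟨w₀, hw₀⟩ hvol
    refine ⟨a, ?_, ?_⟩
    · intro hrat
      obtain ⟨n, hn⟩ := rat_int hrat
      rw [hn, map_intCast] at hre
      have h2 : |(n : ℝ)| < 1 := by simpa using hre
      have h3 : |n| < 1 := by exact_mod_cast h2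
      have h4 : n = 0 := Int.abs_lt_one_iff.1 h3
      apply ha0
      rw [h4, Int.cast_zero] at hn
      exact RingOfIntegers.coe_eq_zero_iff.1 hn
    · intro w
      by_cases hw : w = w₀
      · rw [hw, ← norm_embedding_eq]
        refine (Complex.norm_le_abs_re_add_abs_im _).trans ?_
        rw [if_pos rfl, ← NNReal.coe_pow, NNReal.sq_sqrt] at him
        have e1 : (T : ℝ) + T = 2 ^ (r + 2) * δ := by
          rw [hTr, pow_succ (2 : ℝ) (r + 1)]; ring
        rw [← e1]
        have := hre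
        have := him
        simp only at *
        linarith
      · have h1 := ha w hw
        rw [if_neg hw] at h1
        linarith

end Pool.Agent.Helper19K9.Dd
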