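import Pool.Agent.Helper19K9.Dd.Stm

/-!
# Dd, leaf [SYM] (helper55 for helper19)
-/

set_option autoImplicit false

namespace Pool.Agent.Helper19K9.Dd

open Polynomial Height Height.AdmissibleAbsValues

namespace SymL

variable {L : Type} [Field L]

/-- the product of the factors -/
noncomputable def pr (s : Multiset L) : L[X] := (s.map fun y => X - C y).prod

theorem pr_cons (a : L) (s : Multiset L) : pr (a ::ₘ s) = (X - C a) * pr s := by
  unfold pr; rw [Multiset.map_cons, Multiset.prod_cons]

theorem coeff_cons (a : L) (s : Multiset L) (i : ℕ) :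
    (pr (a ::ₘ s)).coeff i = (if i = 0 then 0 else (pr s).coeff (i - 1)) - a * (pr s).coeff i := by
  rw [pr_cons, sub_mul, coeff_sub, coeff_C_mul]
  congr 1
  rcases i with _ | i
  · simp
  · rw [coeff_X_mul]; simp

/-- the local bound, archimedean -/
theorem arch (v : AbsoluteValue L ℝ) (s : Multiset L) :
    ∀ i, max (v ((pr s).coeff i)) 1 ≤ 2 ^ (Multiset.card s) * (s.map fun y => max (v y) 1).prod := by
  induction s using Multiset.induction with
  | empty =>
    intro i
    have h : pr (0 : Multiset L) = 1 := by simp [pr]
    rw [h, coeff_one]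
    split_ifs <;> simp
  | cons a s ih =>
    intro i
    rw [Multiset.card_cons, Multiset.map_cons, Multiset.prod_cons, coeff_cons]
    set B : ℝ := 2 ^ (Multiset.card s) * (s.map fun y => max (v y) 1).prod with hB
    have hB1 : 1 ≤ B := le_trans (le_max_right _ _) (ih 0)
    have ha : (1 : ℝ) ≤ max (v a) 1 := le_max_right _ _
    have hva : v a ≤ max (v a) 1 := le_max_left _ _
    have h1 : v (if i = 0 then 0 else (pr s).coeff (i - 1)) ≤ B := by
      split_ifs
      · rw [map_zero]; linarith
      · exact le_trans (le_max_left _ _) (ih _)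
    have h2 : v (a * (pr s).coeff i) ≤ max (v a) 1 * B := by
      rw [map_mul]
      exact mul_le_mul hva (le_trans (le_max_left _ _) (ih _)) (v.nonneg _) (by linarith)
    have h3 : B ≤ max (v a) 1 * B := le_mul_of_one_le_left (by linarith) ha
    have h4 : 2 ^ (Multiset.card s + 1) * (max (v a) 1 * (s.map fun y => max (v y) 1).prod) =
        2 * (max (v a) 1 * B) := by
      rw [hB, pow_succ]; ring
    rw [h4]
    refine max_le ?_ ?_
    · refine (v.sub_le_add _ _).trans ?_
      linarith
    · linarith

/-- the local bound, nonarchimedean -/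
theorem nonarch (v : AbsoluteValue L ℝ) (hv : IsNonarchimedean v) (s : Multiset L) :
    ∀ i, max (v ((pr s).coeff i)) 1 ≤ (s.map fun y => max (v y) 1).prod := by
  induction s using Multiset.induction with
  | empty =>
    intro i
    have h : pr (0 : Multiset L) = 1 := by simp [pr]
    rw [h, coeff_one]
    split_ifs <;> simp
  | cons a s ih =>
    intro i
    rw [Multiset.map_cons, Multiset.prod_cons, coeff_cons]
    set B : ℝ := (s.map fun y => max (v y) 1).prod with hB
    have hB1 : 1 ≤ B := le_trans (le_max_right _ _) (ih 0)
    have ha : (1 : ℝ) ≤ max (v a) 1 := le_max_right _ _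
    have hva : v a ≤ max (v a) 1 := le_max_left _ _
    have h1 : v (if i = 0 then 0 else (pr s).coeff (i - 1)) ≤ B := by
      split_ifs
      · rw [map_zero]; linarith
      · exact le_trans (le_max_left _ _) (ih _)
    have h2 : v (a * (pr s).coeff i) ≤ max (v a) 1 * B := by
      rw [map_mul]
      exact mul_le_mul hva (le_trans (le_max_left _ _) (ih _)) (v.nonneg _) (by linarith)
    have h3 : B ≤ max (v a) 1 * B := le_mul_of_one_le_left (by linarith) ha
    refine max_le ?_ ?_
    · rw [sub_eq_add_neg]
      refine (hv _ _).trans ?_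
      refine max_le (by linarith) ?_
      rw [v.map_neg]
      exact h2
    · linarith

variable [AdmissibleAbsValues L]

theorem fin_max (x : L) : (fun v : nonarchAbsVal (K := L) => max (v.val x) 1).HasFiniteMulSupport := by
  rcases eq_or_ne x 0 with rfl | hx
  · simp [Function.HasFiniteMulSupport]
  · have h := hasFiniteMulSupport (K := L) hx
    fun_prop

theorem fin_prod (s : Multiset L) :
    (fun v : nonarchAbsVal (K := L) => (s.map fun y => max (v.val y) 1).prod).HasFiniteMulSupport := by
  induction s using Multiset.induction with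
  | empty => simp [Function.HasFiniteMulSupport]
  | cons a s ih =>
    simp only [Multiset.map_cons, Multiset.prod_cons]
    exact (fin_max a).mul ih

theorem height_prod (s : Multiset L) :
    ((archAbsVal (K := L)).map fun v => (s.map fun y => max (v y) 1).prod).prod *
      ∏ᶠ v : nonarchAbsVal (K := L), (s.map fun y => max (v.val y) 1).prod =
        (s.map fun y => mulHeight₁ y).prod := by
  induction s using Multiset.induction with
  | empty => simp
  | cons a s ih =>
    simp only [Multiset.map_cons, Multiset.prod_cons]
    rw [Multiset.prod_map_mul, finprod_mul_distrib (fin_max a) (fin_prod s), ← ih, mulHeight₁_eq]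
    ring

theorem height_le (s : Multiset L) (i : ℕ) :
    mulHeight₁ ((pr s).coeff i) ≤
      2 ^ (Multiset.card s * Multiset.card (archAbsVal (K := L))) * (s.map fun y => mulHeight₁ y).prod := by
  rw [mulHeight₁_eq, ← height_prod s, pow_mul, ← Multiset.prod_replicate, ← Multiset.map_const,
    ← mul_assoc, ← Multiset.prod_map_mul]
  have h1 : ((archAbsVal (K := L)).map fun v => max (v ((pr s).coeff i)) 1).prod ≤
      ((archAbsVal (K := L)).map fun v => Function.const _ ((2 : ℝ) ^ Multiset.card s) v *
        (s.map fun y => max (v y) 1).prod).prod := by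
    refine Multiset.prod_map_le_prod_map₀ _ _ (fun _ _ => by positivity) fun v _ => ?_
    exact arch v s i
  have h2 : ∏ᶠ v : nonarchAbsVal (K := L), max (v.val ((pr s).coeff i)) 1 ≤
      ∏ᶠ v : nonarchAbsVal (K := L), (s.map fun y => max (v.val y) 1).prod := by
    refine finprod_le_finprod (fin_max _) (fun _ => by positivity) (fin_prod s) ?_
    intro v
    exact nonarch v.val (isNonarchimedean _ v.prop) s i
  refine mul_le_mul h1 h2 ?_ ?_
  · exact finprod_nonneg fun _ => by positivity
  · refine le_trans ?_ h1
    refine Multiset.prod_map_nonneg fun _ _ => by positivity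

end SymL

open SymL in
theorem sym : S_SYM := by
  intro L _ _ s i
  have h := height_le (L := L) s i
  have hc : Multiset.card (archAbsVal (K := L)) = Module.finrank ℚ L :=
    NumberField.totalWeight_eq_finrank L
  rw [hc] at h
  have h1 := Real.log_le_log (mulHeight₁_pos _) h
  have hpos : ∀ a ∈ s.map fun y => mulHeight₁ y, a ≠ 0 := by
    intro a ha
    obtain ⟨y, _, rfl⟩ := Multiset.mem_map.1 ha
    exact mulHeight₁_ne_zero y
  have hp0 : (s.map fun y => mulHeight₁ y).prod ≠ 0 := by
    intro h0
    rw [Multiset.prod_eq_zero_iff] at h0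
    exact hpos 0 h0 rfl
  rw [Real.log_mul (by positivity) hp0, Real.log_pow, Real.log_multiset_prod hpos, Multiset.map_map] at h1
  unfold pr at h1
  refine h1.trans (le_of_eq ?_)
  push_cast
  simp only [Function.comp_def]
  ring

end Pool.Agent.Helper19K9.Dd
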