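import Pool.Agent.Helper19K9.Dd.Stm

/-!
# Dd, leaf [UNIQ] (helper55 for helper19)
-/

set_option autoImplicit false

namespace Pool.Agent.Helper19K9.Dd

open Polynomial

theorem uniq : S_UNIQ := by
  intro F _ _ φ f f' hφ hf hf' h1 h2
  have hinj : Function.Injective (Int.castRingHom F) := RingHom.injective_int _
  have key : ∀ g : ℤ[X], Irreducible g → φ ∣ g.map (Int.castRingHom F) → g.IsPrimitive := by
    intro g hg hd
    have h0 : g.map (Int.castRingHom F) ≠ 0 := by
      rw [Ne, Polynomial.map_eq_zero_iff hinj]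
      exact hg.ne_zero
    have h3 := natDegree_le_of_dvd hd h0
    rw [natDegree_map_eq_of_injective hinj] at h3
    exact hg.isPrimitive (by omega)
  have hp := key f hf h1
  have hp' := key f' hf' h2
  have hi : Irreducible (f.map (Int.castRingHom ℚ)) :=
    (IsPrimitive.Int.irreducible_iff_irreducible_map_cast hp).1 hf
  by_cases hd : f.map (Int.castRingHom ℚ) ∣ f'.map (Int.castRingHom ℚ)
  · have h3 : f ∣ f' := (IsPrimitive.Int.dvd_iff_map_cast_dvd_map_cast f f' hp).2 hd
    obtain ⟨u, hu⟩ := (hf.dvd_irreducible_iff_associated hf').1 h3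
    obtain ⟨c, hc, hcu⟩ := Polynomial.isUnit_iff.1 u.isUnit
    rcases Int.isUnit_iff.1 hc with h4 | h4
    · left
      rw [← hu, ← hcu, h4]; simp
    · right
      rw [← hu, ← hcu, h4]; simp
  · exfalso
    have hco : IsCoprime (f.map (Int.castRingHom ℚ)) (f'.map (Int.castRingHom ℚ)) :=
      hi.coprime_iff_not_dvd.2 hd
    have hco' := hco.map (Polynomial.mapRingHom (algebraMap ℚ F))
    have hmm : ∀ g : ℤ[X], Polynomial.mapRingHom (algebraMap ℚ F) (g.map (Int.castRingHom ℚ)) =
        g.map (Int.castRingHom F) := by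
      intro g
      rw [Polynomial.coe_mapRingHom, Polynomial.map_map]
      congr 1
      exact RingHom.ext_int _ _
    rw [hmm, hmm] at hco'
    have hu := hco'.isUnit_of_dvd' h1 h2
    have := Polynomial.natDegree_eq_zero_of_isUnit hu
    omega

end Pool.Agent.Helper19K9.Dd
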